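import Mathlib

/-!
# Optimal edge-colourings of `K_n` without a rainbow cycle of length `n - 2`

For every `k ≥ 3` we give an optimal edge-colouring of `K_n` without a rainbow cycle of length
`n - 2`, both for `n = 2 ^ k` and for `n = 2 ^ k - 1`. The vertices are (labelled by) the vectors,
respectively the nonzero vectors, of `(ZMod 2) ^ k` and the edge `xy` gets the colour `x + y`.
-/

set_option autoImplicit false

namespace Pool.Agent.Results.MP_4bc86c_co.NoRainbowCycle

open Finset

/-- An edge-colouring of the complete graph on `V` is proper if any two distinct edges that share a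
vertex get different colours. -/
def IsProper {V C : Type} (c : Sym2 V → C) : Prop :=
  ∀ u v w : V, u ≠ v → u ≠ w → v ≠ w → c s(u, v) ≠ c s(u, w)

/-- The number of colours that an edge-colouring of the complete graph on `V` uses. -/
noncomputable def numColours {V C : Type} (c : Sym2 V → C) : ℕ :=
  (c '' (⊤ : SimpleGraph V).edgeSet).ncard

/-- A proper edge-colouring of the complete graph on `V` is optimal if no proper edge-colouring
uses fewer colours. -/
def IsOptimal {V C : Type} (c : Sym2 V → C) : Prop :=
  IsProper c ∧ ∀ (C' : Type) (c' : Sym2 V → C'), IsProper c' → numColours c ≤ numColours c'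

/-- The complete graph on `V` with the edge-colouring `c` has a rainbow cycle of length `l`. -/
def HasRainbowCycle {V C : Type} (c : Sym2 V → C) (l : ℕ) : Prop :=
  ∃ (v : V) (p : (⊤ : SimpleGraph V).Walk v v), p.IsCycle ∧ p.length = l ∧ (p.edges.map c).Nodup

/-- the vector space -/
abbrev W (k : ℕ) : Type := Fin k → ZMod 2

lemma W_add_self {k : ℕ} (x : W k) : x + x = 0 := by
  funext i
  exact CharTwo.add_self_eq_zero (x i)

lemma W_add_eq_zero {k : ℕ} {x y : W k} (h : x + y = 0) : x = y := by
  have h1 : x + y = y + y := by rw [h, W_add_self]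
  exact add_right_cancel h1

/-- the colouring `xy ↦ f x + f y` -/
def sumCol {V : Type} {k : ℕ} (f : V → W k) : Sym2 V → W k :=
  Sym2.lift ⟨fun x y => f x + f y, fun _ _ => add_comm _ _⟩

lemma sumCol_mk {V : Type} {k : ℕ} (f : V → W k) (x y : V) : sumCol f s(x, y) = f x + f y := rfl

lemma sumCol_proper {V : Type} {k : ℕ} (f : V → W k) (hf : Function.Injective f) :
    IsProper (sumCol f) := by
  intro u v w _ _ hvw h
  rw [sumCol_mk, sumCol_mk] at h
  exact hvw (hf (add_left_cancel h))

lemma walk_sum {V : Type} {k : ℕ} (f : V → W k) {u v : V} (p : (⊤ : SimpleGraph V).Walk u v) :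
    (p.edges.map (sumCol f)).sum = f u + f v := by
  induction p with
  | nil => simp [W_add_self]
  | cons h p ih =>
    rename_i a b c
    rw [SimpleGraph.Walk.edges_cons, List.map_cons, List.sum_cons, ih, sumCol_mk]
    have : f a + f b + (f b + f c) = f a + (f b + f b) + f c := by abel
    rw [this, W_add_self, add_zero]

lemma edge_col_ne {V : Type} {k : ℕ} (f : V → W k) (hf : Function.Injective f) {e : Sym2 V}
    (he : e ∈ (⊤ : SimpleGraph V).edgeSet) : sumCol f e ≠ 0 := by
  induction e using Sym2.ind with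
  | _ x y =>
    intro h
    rw [SimpleGraph.mem_edgeSet, SimpleGraph.top_adj] at he
    exact he (hf (W_add_eq_zero h))

/-- the sum of all vectors -/
lemma sum_univ {k : ℕ} (hk : 2 ≤ k) : ∑ x : W k, x = 0 := by
  funext i
  rw [Finset.sum_apply]
  obtain ⟨j, hj⟩ : ∃ j : Fin k, j ≠ i := by
    have : Nontrivial (Fin k) := Fin.nontrivial_iff_two_le.mpr hk
    exact exists_ne i
  refine Finset.sum_involution (fun x _ => Function.update x j (x j + 1)) ?_ ?_ ?_ ?_
  · intro x _
    rw [Function.update_of_ne hj.symm]
    exact CharTwo.add_self_eq_zero (x i)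
  · intro x _ _ h
    have := congrFun h j
    rw [Function.update_self] at this
    simp at this
  · intro x _
    exact Finset.mem_univ _
  · intro x _
    funext l
    by_cases hl : l = j
    · subst hl
      simp only [Function.update_self]
      rw [add_assoc, CharTwo.add_self_eq_zero, add_zero]
    · simp [Function.update_of_ne hl]

/-- A rainbow cycle of length `l` gives a set of `l` nonzero vectors with sum `0`. -/
lemma cycle_set {V : Type} {k : ℕ} (f : V → W k) (hf : Function.Injective f) {l : ℕ}
    (h : HasRainbowCycle (sumCol f) l) :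
    ∃ S : Finset (W k), S.card = l ∧ (0 : W k) ∉ S ∧ ∑ x ∈ S, x = 0 := by
  classical
  obtain ⟨v, p, -, hl, hnd⟩ := h
  refine ⟨(p.edges.map (sumCol f)).toFinset, ?_, ?_, ?_⟩
  · rw [List.toFinset_card_of_nodup hnd, List.length_map, SimpleGraph.Walk.length_edges, hl]
  · rw [List.mem_toFinset, List.mem_map]
    rintro ⟨e, he, h0⟩
    exact edge_col_ne f hf (p.edges_subset_edgeSet he) h0
  · have h1 := List.sum_toFinset (fun x : W k => x) hnd
    rw [h1, List.map_id']
    rw [walk_sum, W_add_self]

lemma W_card (k : ℕ) : Fintype.card (W k) = 2 ^ k := by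
  simp [W]

lemma compl_set {k : ℕ} (hk : 2 ≤ k) (S : Finset (W k)) (h0 : (0 : W k) ∉ S)
    (hS : ∑ x ∈ S, x = 0) : ∃ T : Finset (W k), T.card = 2 ^ k - 1 - S.card ∧ (0 : W k) ∉ T ∧
      ∑ x ∈ T, x = 0 := by
  classical
  have hsub : insert (0 : W k) S ⊆ univ := Finset.subset_univ _
  refine ⟨univ \ insert 0 S, ?_, ?_, ?_⟩
  · rw [Finset.card_sdiff_of_subset hsub, Finset.card_insert_of_notMem h0, Finset.card_univ, W_card]
    omega
  · simp
  · have h1 := Finset.sum_sdiff (f := fun x : W k => x) hsub
    rw [sum_univ hk, Finset.sum_insert h0, hS] at h1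
    simpa using h1

/-! ### Optimality -/

lemma star_image {V C : Type} [Fintype V] [DecidableEq V] (c : Sym2 V → C) (v : V) :
    (fun w => c s(v, w)) '' ((univ.erase v : Finset V) : Set V) ⊆
      c '' (⊤ : SimpleGraph V).edgeSet := by
  rintro _ ⟨w, hw, rfl⟩
  refine ⟨s(v, w), ?_, rfl⟩
  rw [SimpleGraph.mem_edgeSet, SimpleGraph.top_adj]
  have := Finset.mem_coe.mp hw
  rw [Finset.mem_erase] at this
  exact this.1.symm

lemma star_injOn {V C : Type} [Fintype V] [DecidableEq V] (c : Sym2 V → C) (hc : IsProper c)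
    (v : V) : Set.InjOn (fun w => c s(v, w)) ((univ.erase v : Finset V) : Set V) := by
  intro a ha b hb hab
  have ha' := (Finset.mem_erase.mp (Finset.mem_coe.mp ha)).1
  have hb' := (Finset.mem_erase.mp (Finset.mem_coe.mp hb)).1
  by_contra hne
  exact hc v a b ha'.symm hb'.symm hne hab

/-- a proper colouring uses at least `|V| - 1` colours -/
lemma card_sub_one_le {V C : Type} [Fintype V] [Nonempty V] (c : Sym2 V → C) (hc : IsProper c) :
    Fintype.card V - 1 ≤ numColours c := by
  classical
  obtain ⟨v⟩ := (inferInstance : Nonempty V)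
  have h1 : ((fun w => c s(v, w)) '' ((univ.erase v : Finset V) : Set V)).ncard =
      Fintype.card V - 1 := by
    rw [(star_injOn c hc v).ncard_image, Set.ncard_coe_finset,
      Finset.card_erase_of_mem (Finset.mem_univ v), Finset.card_univ]
  rw [← h1]
  exact Set.ncard_le_ncard (star_image c v) ((Set.toFinite _).image c)

/-- a proper colouring of a complete graph of odd order `≥ 3` uses at least `|V|` colours -/
lemma card_le_of_odd {V C : Type} [Fintype V] (hodd : Odd (Fintype.card V))
    (h3 : 3 ≤ Fintype.card V) (c : Sym2 V → C) (hc : IsProper c) :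
    Fintype.card V ≤ numColours c := by
  classical
  have hne : Nonempty V := by
    rw [← Fintype.card_pos_iff]
    exact hodd.pos
  by_contra hlt
  have hge := card_sub_one_le c hc
  have heq : numColours c = Fintype.card V - 1 := by omega
  have hfin : (c '' (⊤ : SimpleGraph V).edgeSet).Finite := (Set.toFinite _).image c
  -- every vertex sees every colour
  have hall : ∀ v : V, (fun w => c s(v, w)) '' ((univ.erase v : Finset V) : Set V) =
      c '' (⊤ : SimpleGraph V).edgeSet := by
    intro v
    refine Set.eq_of_subset_of_ncard_le (star_image c v) ?_ hfin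
    rw [(star_injOn c hc v).ncard_image, Set.ncard_coe_finset,
      Finset.card_erase_of_mem (Finset.mem_univ v), Finset.card_univ, ← heq]
    exact le_rfl
  obtain ⟨x, hx⟩ : (c '' (⊤ : SimpleGraph V).edgeSet).Nonempty := by
    rw [← Set.ncard_pos hfin]
    change 0 < numColours c
    omega
  have hex : ∀ v : V, ∃ w, v ≠ w ∧ c s(v, w) = x := by
    intro v
    rw [← hall v] at hx
    obtain ⟨w, hw, hwx⟩ := hx
    exact ⟨w, (Finset.mem_erase.mp (Finset.mem_coe.mp hw)).1.symm, hwx⟩
  choose m hm1 hm2 using hex
  have hinv : ∀ v, m (m v) = v := by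
    intro v
    by_contra hcon
    refine hc (m v) v (m (m v)) (hm1 v).symm (hm1 (m v)) (fun h => hcon h.symm) ?_
    rw [hm2 (m v), Sym2.eq_swap, hm2 v]
  have hsum : ∑ _v : V, (1 : ZMod 2) = 0 := by
    refine Finset.sum_involution (fun v _ => m v) ?_ ?_ ?_ ?_
    · intro v _
      decide
    · intro v _ _ h
      exact hm1 v h.symm
    · intro v _
      exact Finset.mem_univ _
    · intro v _
      exact hinv v
  rw [Finset.sum_const, Finset.card_univ, nsmul_eq_mul, mul_one,
    ZMod.natCast_eq_zero_iff_even] at hsum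
  exact (Nat.not_even_iff_odd.mpr hodd) hsum

/-- the colours of `sumCol f` are nonzero vectors -/
lemma numColours_sumCol_le {V : Type} {k : ℕ} (f : V → W k) (hf : Function.Injective f) :
    numColours (sumCol f) ≤ 2 ^ k - 1 := by
  classical
  have h1 : sumCol f '' (⊤ : SimpleGraph V).edgeSet ⊆ ((univ.erase (0 : W k) : Finset (W k)) :
      Set (W k)) := by
    rintro _ ⟨e, he, rfl⟩
    rw [Finset.mem_coe, Finset.mem_erase]
    exact ⟨edge_col_ne f hf he, Finset.mem_univ _⟩
  have h2 := Set.ncard_le_ncard h1 (Finset.finite_toSet _)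
  rwa [Set.ncard_coe_finset, Finset.card_erase_of_mem (Finset.mem_univ _), Finset.card_univ,
    W_card] at h2

lemma two_pow_ge {k : ℕ} (hk : 3 ≤ k) : 8 ≤ 2 ^ k := by
  calc 8 = 2 ^ 3 := by norm_num
    _ ≤ 2 ^ k := Nat.pow_le_pow_right (by norm_num) hk

/-- For every `k ≥ 3` and for both `n = 2 ^ k` and `n = 2 ^ k - 1` there is an optimal proper
edge-colouring of the complete graph on `n` vertices without a rainbow cycle of length `n - 2`. -/
theorem result (k : ℕ) (hk : 3 ≤ k) :
    (∃ (C : Type) (c : Sym2 (Fin (2 ^ k)) → C), IsOptimal c ∧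
      ¬ HasRainbowCycle c (2 ^ k - 2)) ∧
    (∃ (C : Type) (c : Sym2 (Fin (2 ^ k - 1)) → C), IsOptimal c ∧
      ¬ HasRainbowCycle c (2 ^ k - 1 - 2)) := by
  classical
  have h8 := two_pow_ge hk
  constructor
  · let e : Fin (2 ^ k) ≃ W k := (Fintype.equivFinOfCardEq (W_card k)).symm
    refine ⟨W k, sumCol e, ⟨sumCol_proper e e.injective, ?_⟩, ?_⟩
    · intro C' c' hc'
      have : Nonempty (Fin (2 ^ k)) := ⟨⟨0, by omega⟩⟩
      have h1 := card_sub_one_le c' hc'
      rw [Fintype.card_fin] at h1
      exact (numColours_sumCol_le e e.injective).trans h1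
    · intro h
      obtain ⟨S, hS1, hS2, hS3⟩ := cycle_set e e.injective h
      obtain ⟨T, hT1, hT2, hT3⟩ := compl_set (by omega) S hS2 hS3
      have hT : T.card = 1 := by omega
      obtain ⟨a, rfl⟩ := Finset.card_eq_one.mp hT
      rw [Finset.sum_singleton] at hT3
      exact hT2 (by simp [hT3])
  · have hcard : Fintype.card {x : W k // x ≠ 0} = 2 ^ k - 1 := by
      rw [Fintype.card_subtype_compl, W_card, Fintype.card_subtype_eq]
    let e : Fin (2 ^ k - 1) ≃ {x : W k // x ≠ 0} := (Fintype.equivFinOfCardEq hcard).symm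
    let f : Fin (2 ^ k - 1) → W k := fun i => (e i : W k)
    have hf : Function.Injective f := Subtype.val_injective.comp e.injective
    refine ⟨W k, sumCol f, ⟨sumCol_proper f hf, ?_⟩, ?_⟩
    · intro C' c' hc'
      have hodd : Odd (Fintype.card (Fin (2 ^ k - 1))) := by
        rw [Fintype.card_fin]
        obtain ⟨j, rfl⟩ : ∃ j, k = j + 1 := ⟨k - 1, by omega⟩
        refine ⟨2 ^ j - 1, ?_⟩
        have : 1 ≤ 2 ^ j := Nat.one_le_two_pow
        rw [pow_succ]
        omega
      have h1 := card_le_of_odd hodd (by rw [Fintype.card_fin]; omega) c' hc'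
      rw [Fintype.card_fin] at h1
      exact (numColours_sumCol_le f hf).trans h1
    · intro h
      obtain ⟨S, hS1, hS2, hS3⟩ := cycle_set f hf h
      obtain ⟨T, hT1, hT2, hT3⟩ := compl_set (by omega) S hS2 hS3
      have hT : T.card = 2 := by omega
      obtain ⟨a, b, hab, rfl⟩ := Finset.card_eq_two.mp hT
      rw [Finset.sum_pair hab] at hT3
      exact hab (W_add_eq_zero hT3)

end Pool.Agent.Results.MP_4bc86c_co.NoRainbowCycle
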